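import Pool.Agent.V8H31.Chains.Sound

set_option autoImplicit false

namespace Pool.Agent.V8H31.Chains

set_option maxRecDepth 100000 in
theorem run4491 : search 4491 13 [1] 1 1 = true := by decide +kernel

/-- Every addition chain for `4491` has length at least `16`. -/
theorem chain4491 (r : ℕ) (c : ℕ → ℕ) (h0 : c 0 = 1)
    (hc : ∀ k, 1 ≤ k → k ≤ r → ∃ i j, i < k ∧ j < k ∧ c k = c i + c j) (hr : c r = 4491) :
    15 < r := by
  by_contra hcon
  have hpos : ∀ k, k ≤ r → 0 < c k := by
    intro k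
    induction k using Nat.strong_induction_on with
    | _ k ih =>
      intro hk
      rcases Nat.eq_zero_or_pos k with h | h
      · rw [h, h0]; exact Nat.one_pos
      · obtain ⟨i, j, hi, hj, e⟩ := hc k h hk
        have := ih i hi (by omega)
        omega
  let T : Finset ℕ := ((Finset.range (r + 1)).image c).filter (· ≤ 4491)
  have hmem : ∀ t, t ∈ T ↔ (∃ k, k ≤ r ∧ c k = t) ∧ t ≤ 4491 := by
    intro t
    simp only [T, Finset.mem_filter, Finset.mem_image, Finset.mem_range]
    constructor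
    · rintro ⟨⟨k, hk, e⟩, h⟩
      exact ⟨⟨k, by omega, e⟩, h⟩
    · rintro ⟨⟨k, hk, e⟩, h⟩
      exact ⟨⟨k, by omega, e⟩, h⟩
  have hT : Cl 4491 T := by
    refine ⟨?_, ?_, ?_⟩
    · intro t ht
      obtain ⟨⟨k, hk, e⟩, _⟩ := (hmem t).1 ht
      rw [← e]; exact hpos k hk
    · intro t ht
      exact ((hmem t).1 ht).2
    · intro t ht ht1
      obtain ⟨⟨k, hk, e⟩, hle⟩ := (hmem t).1 ht
      have hk0 : 1 ≤ k := by
        rcases Nat.eq_zero_or_pos k with h | h
        · exfalso; apply ht1; rw [← e, h, h0]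
        · exact h
      obtain ⟨i, j, hi, hj, e'⟩ := hc k hk0 hk
      refine ⟨c i, (hmem _).2 ⟨⟨i, by omega, rfl⟩, by omega⟩, c j,
        (hmem _).2 ⟨⟨j, by omega, rfl⟩, by omega⟩, by omega⟩
  have h1T : 1 ∈ T := (hmem 1).2 ⟨⟨0, by omega, h0⟩, by norm_num⟩
  have hnT : 4491 ∈ T := (hmem 4491).2 ⟨⟨r, le_rfl, hr⟩, le_rfl⟩
  have hTcard : T.card ≤ 16 := by
    calc T.card ≤ ((Finset.range (r + 1)).image c).card := Finset.card_filter_le _ _
      _ ≤ (Finset.range (r + 1)).card := Finset.card_image_le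
      _ = r + 1 := Finset.card_range _
      _ ≤ 16 := by omega
  have hcard : (T.filter (1 < ·)).card ≤ 13 + 2 := by
    have hlt : (T.filter (1 < ·)).card < T.card := by
      apply Finset.card_lt_card
      rw [Finset.ssubset_iff_of_subset (Finset.filter_subset _ _)]
      exact ⟨1, h1T, by simp⟩
    omega
  refine search_sound (n := 4491) (by norm_num) hT hnT 13 [1] 1 1 le_rfl (by norm_num) (by simp) ?_
    ?_ le_rfl hcard run4491
  · intro a
    rw [List.mem_singleton]
    constructor
    · rintro rfl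
      exact ⟨h1T, le_rfl⟩
    · rintro ⟨h1, h2⟩
      have := hT.pos a h1
      omega
  · intro a ha _
    rw [List.mem_singleton] at ha
    omega

end Pool.Agent.V8H31.Chains
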