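import Mathlib

set_option autoImplicit false

open Polynomial

namespace Pool.Agent.V8H31.Chains

/-- The polynomial of degree `8`. -/
noncomputable def B : ℤ[X] := X ^ 8 - 2 * X ^ 3

/-- The polynomial of degree `12`. -/
noncomputable def C : ℤ[X] := X ^ 12 - 2 * X ^ 7

/-- The polynomial of degree `11`. -/
noncomputable def H : ℤ[X] := 2 * X ^ 11 - 4 * X ^ 6

/-- The last polynomial, of degree `4491`. -/
noncomputable def Q : ℤ[X] := (C ^ 2 * H) ^ 128 * H

/-- The program. -/
noncomputable def val : ℕ → ℤ[X]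
  | 0 => 1
  | 1 => X
  | 2 => X ^ 2
  | 3 => X ^ 2 + X
  | 4 => X ^ 4
  | 5 => X ^ 4 + (X ^ 2 + X)
  | 6 => X ^ 4 - (X ^ 2 + X)
  | 7 => X ^ 8 - (X ^ 2 + X) ^ 2
  | 8 => X ^ 8 - 2 * X ^ 3 - X ^ 2
  | 9 => B
  | 10 => C
  | 11 => C ^ 2
  | 12 => C + B
  | 13 => C - B
  | 14 => C - B + X ^ 4
  | 15 => (C + B) * (C - B + X ^ 4)
  | 16 => (C + B) * (C - B + X ^ 4) - C ^ 2
  | 17 => H
  | 18 => C ^ 2 * H
  | 19 => (C ^ 2 * H) ^ 2
  | 20 => (C ^ 2 * H) ^ 4
  | 21 => (C ^ 2 * H) ^ 8
  | 22 => (C ^ 2 * H) ^ 16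
  | 23 => (C ^ 2 * H) ^ 32
  | 24 => (C ^ 2 * H) ^ 64
  | 25 => (C ^ 2 * H) ^ 64 * H
  | _ => Q

/-- The operations (`0` addition, `1` subtraction, `2` multiplication). -/
def opl : ℕ → Fin 3 := fun k =>
  ([2, 0, 2, 0, 1, 2, 0, 0, 2, 2, 0, 1, 0, 2, 1, 1] : List (Fin 3)).getD k 2

/-- First arguments. -/
def al : ℕ → ℕ := fun k =>
  ([1, 2, 2, 4, 4, 5, 7, 8, 9, 10, 10, 10, 13, 12, 15, 16, 11, 18, 19, 20, 21, 22, 23, 24, 24] :
    List ℕ).getD k 0

/-- Second arguments. -/
def bl : ℕ → ℕ := fun k =>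
  ([1, 1, 2, 3, 3, 6, 4, 2, 4, 10, 9, 9, 4, 14, 11, 10, 17, 18, 19, 20, 21, 22, 23, 17, 25] :
    List ℕ).getD k 0

theorem natDegree_C : C.natDegree = 12 := by
  unfold C
  compute_degree!

theorem natDegree_H : H.natDegree = 11 := by
  unfold H
  compute_degree!

theorem C_ne : C ≠ 0 := by
  intro h
  have := natDegree_C
  rw [h, natDegree_zero] at this
  omega

theorem H_ne : H ≠ 0 := by
  intro h
  have := natDegree_H
  rw [h, natDegree_zero] at this
  omega

theorem natDegree_last : Q.natDegree = 4491 := by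
  unfold Q
  have h1 : C ^ 2 * H ≠ 0 := mul_ne_zero (pow_ne_zero _ C_ne) H_ne
  rw [natDegree_mul (pow_ne_zero _ h1) H_ne, natDegree_pow, natDegree_mul (pow_ne_zero _ C_ne) H_ne,
    natDegree_pow, natDegree_C, natDegree_H]

theorem val26 : val 26 = Q := rfl

theorem val24 : val 24 = (C ^ 2 * H) ^ 64 := rfl

theorem val25 : val 25 = (C ^ 2 * H) ^ 64 * H := rfl

theorem step24 : val 26 = val 24 * val 25 := by
  rw [val26, val24, val25]
  unfold Q
  generalize C ^ 2 * H = F
  ring

theorem steps (k : ℕ) (hk : k < 25) :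
    al k < k + 2 ∧ bl k < k + 2 ∧
      (opl k = 0 → val (k + 2) = val (al k) + val (bl k)) ∧
      (opl k = 1 → val (k + 2) = val (al k) - val (bl k)) ∧
      (opl k = 2 → val (k + 2) = val (al k) * val (bl k)) := by
  interval_cases k
  · refine ⟨by decide, by decide, fun h => absurd h (by decide), fun h => absurd h (by decide), fun _ => ?_⟩
    show (X : ℤ[X]) ^ 2 = X * X
    ring
  · refine ⟨by decide, by decide, fun _ => ?_, fun h => absurd h (by decide), fun h => absurd h (by decide)⟩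
    show (X : ℤ[X]) ^ 2 + X = X ^ 2 + X
    ring
  · refine ⟨by decide, by decide, fun h => absurd h (by decide), fun h => absurd h (by decide), fun _ => ?_⟩
    show (X : ℤ[X]) ^ 4 = X ^ 2 * X ^ 2
    ring
  · refine ⟨by decide, by decide, fun _ => ?_, fun h => absurd h (by decide), fun h => absurd h (by decide)⟩
    show (X : ℤ[X]) ^ 4 + (X ^ 2 + X) = X ^ 4 + (X ^ 2 + X)
    ring
  · refine ⟨by decide, by decide, fun h => absurd h (by decide), fun _ => ?_, fun h => absurd h (by decide)⟩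
    show (X : ℤ[X]) ^ 4 - (X ^ 2 + X) = X ^ 4 - (X ^ 2 + X)
    ring
  · refine ⟨by decide, by decide, fun h => absurd h (by decide), fun h => absurd h (by decide), fun _ => ?_⟩
    show (X : ℤ[X]) ^ 8 - (X ^ 2 + X) ^ 2 = (X ^ 4 + (X ^ 2 + X)) * (X ^ 4 - (X ^ 2 + X))
    ring
  · refine ⟨by decide, by decide, fun _ => ?_, fun h => absurd h (by decide), fun h => absurd h (by decide)⟩
    show (X : ℤ[X]) ^ 8 - 2 * X ^ 3 - X ^ 2 = (X ^ 8 - (X ^ 2 + X) ^ 2) + X ^ 4
    ring
  · refine ⟨by decide, by decide, fun _ => ?_, fun h => absurd h (by decide), fun h => absurd h (by decide)⟩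
    show (X : ℤ[X]) ^ 8 - 2 * X ^ 3 = (X ^ 8 - 2 * X ^ 3 - X ^ 2) + X ^ 2
    ring
  · refine ⟨by decide, by decide, fun h => absurd h (by decide), fun h => absurd h (by decide), fun _ => ?_⟩
    show (X : ℤ[X]) ^ 12 - 2 * X ^ 7 = (X ^ 8 - 2 * X ^ 3) * X ^ 4
    ring
  · refine ⟨by decide, by decide, fun h => absurd h (by decide), fun h => absurd h (by decide), fun _ => ?_⟩
    show C ^ 2 = C * C
    ring
  · refine ⟨by decide, by decide, fun _ => ?_, fun h => absurd h (by decide), fun h => absurd h (by decide)⟩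
    rfl
  · refine ⟨by decide, by decide, fun h => absurd h (by decide), fun _ => ?_, fun h => absurd h (by decide)⟩
    rfl
  · refine ⟨by decide, by decide, fun _ => ?_, fun h => absurd h (by decide), fun h => absurd h (by decide)⟩
    rfl
  · refine ⟨by decide, by decide, fun h => absurd h (by decide), fun h => absurd h (by decide), fun _ => ?_⟩
    rfl
  · refine ⟨by decide, by decide, fun h => absurd h (by decide), fun _ => ?_, fun h => absurd h (by decide)⟩
    rfl
  · refine ⟨by decide, by decide, fun h => absurd h (by decide), fun _ => ?_, fun h => absurd h (by decide)⟩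
    show H = (C + B) * (C - B + X ^ 4) - C ^ 2 - C
    unfold H C B
    ring
  · refine ⟨by decide, by decide, fun h => absurd h (by decide), fun h => absurd h (by decide), fun _ => ?_⟩
    rfl
  · refine ⟨by decide, by decide, fun h => absurd h (by decide), fun h => absurd h (by decide), fun _ => ?_⟩
    show (C ^ 2 * H) ^ 2 = (C ^ 2 * H) * (C ^ 2 * H)
    ring
  · refine ⟨by decide, by decide, fun h => absurd h (by decide), fun h => absurd h (by decide), fun _ => ?_⟩
    show (C ^ 2 * H) ^ 4 = (C ^ 2 * H) ^ 2 * (C ^ 2 * H) ^ 2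
    rw [← pow_add]
  · refine ⟨by decide, by decide, fun h => absurd h (by decide), fun h => absurd h (by decide), fun _ => ?_⟩
    show (C ^ 2 * H) ^ 8 = (C ^ 2 * H) ^ 4 * (C ^ 2 * H) ^ 4
    rw [← pow_add]
  · refine ⟨by decide, by decide, fun h => absurd h (by decide), fun h => absurd h (by decide), fun _ => ?_⟩
    show (C ^ 2 * H) ^ 16 = (C ^ 2 * H) ^ 8 * (C ^ 2 * H) ^ 8
    rw [← pow_add]
  · refine ⟨by decide, by decide, fun h => absurd h (by decide), fun h => absurd h (by decide), fun _ => ?_⟩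
    show (C ^ 2 * H) ^ 32 = (C ^ 2 * H) ^ 16 * (C ^ 2 * H) ^ 16
    rw [← pow_add]
  · refine ⟨by decide, by decide, fun h => absurd h (by decide), fun h => absurd h (by decide), fun _ => ?_⟩
    show (C ^ 2 * H) ^ 64 = (C ^ 2 * H) ^ 32 * (C ^ 2 * H) ^ 32
    rw [← pow_add]
  · refine ⟨by decide, by decide, fun h => absurd h (by decide), fun h => absurd h (by decide), fun _ => ?_⟩
    rfl
  · refine ⟨by decide, by decide, fun h => absurd h (by decide), fun h => absurd h (by decide), fun _ => ?_⟩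
    exact step24

end Pool.Agent.V8H31.Chains
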