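import Pool.Agent.V8H31.Chains.Defs

set_option autoImplicit false

namespace Pool.Agent.V8H31.Chains

/-- `T` is a set of positive integers `≤ n`, each being `1` or a sum of two members. -/
structure Cl (n : ℕ) (T : Finset ℕ) : Prop where
  pos : ∀ t ∈ T, 0 < t
  le : ∀ t ∈ T, t ≤ n
  cl : ∀ t ∈ T, t ≠ 1 → ∃ a ∈ T, ∃ b ∈ T, t = a + b

/-- The bound for the odd members, when there are at most `k` members above `x`. -/
def G : ℕ → ℕ → ℕ → ℕ → ℕ
  | 0, _, _, o => o
  | 1, x, m, _ => x + m
  | 2, x, _, o => 2 * x + o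
  | (k + 3), x, m, o => max (2 ^ (k + 2) * x + o) ((2 ^ (k + 1) + 1) * (x + m))

theorem G_mono (k : ℕ) {x x' m m' o o' : ℕ} (hx : x ≤ x') (hm : m ≤ m') (ho : o ≤ o') :
    G k x m o ≤ G k x' m' o' := by
  match k with
  | 0 => exact ho
  | 1 => exact Nat.add_le_add hx hm
  | 2 => exact Nat.add_le_add (Nat.mul_le_mul_left 2 hx) ho
  | (k + 3) =>
    exact max_le_max (Nat.add_le_add (Nat.mul_le_mul_left _ hx) ho)
      (Nat.mul_le_mul_left _ (Nat.add_le_add hx hm))

theorem o_le_G (k x m o : ℕ) (h : o ≤ x) : o ≤ G k x m o := by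
  match k with
  | 0 => exact le_rfl
  | 1 => show o ≤ x + m; omega
  | 2 => show o ≤ 2 * x + o; omega
  | (k + 3) => exact le_trans (Nat.le_add_left _ _) (le_max_left _ _)

theorem G_even (k x m o : ℕ) (ho : o ≤ x) : G k (2 * x) o o ≤ G (k + 1) x m o := by
  match k with
  | 0 => show o ≤ x + m; omega
  | 1 => exact le_rfl
  | 2 =>
    show 2 * (2 * x) + o ≤ max (2 ^ (0 + 2) * x + o) ((2 ^ (0 + 1) + 1) * (x + m))
    refine le_trans (le_of_eq ?_) (le_max_left _ _)
    ring
  | (k + 3) =>
    show max (2 ^ (k + 2) * (2 * x) + o) ((2 ^ (k + 1) + 1) * (2 * x + o)) ≤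
      max (2 ^ (k + 1 + 2) * x + o) ((2 ^ (k + 1 + 1) + 1) * (x + m))
    refine le_trans ?_ (le_max_left _ _)
    have h1 : 1 ≤ 2 ^ k := Nat.one_le_two_pow
    have e1 : 2 ^ (k + 2) = 4 * 2 ^ k := by ring
    have e2 : 2 ^ (k + 1) = 2 * 2 ^ k := by ring
    have e3 : 2 ^ (k + 1 + 2) = 8 * 2 ^ k := by ring
    rw [e1, e2, e3]
    refine max_le (by nlinarith) ?_
    have h2 : x ≤ 2 ^ k * x := by nlinarith
    have h3 : 2 ^ k * o ≤ 2 ^ k * x := Nat.mul_le_mul_left _ ho
    nlinarith

theorem G_odd (k x m o : ℕ) (hm : m ≤ o) (ho : o ≤ x) :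
    G k (x + m) x (x + m) ≤ G (k + 1) x m o := by
  match k with
  | 0 => exact le_rfl
  | 1 => show x + m + x ≤ 2 * x + o; omega
  | 2 =>
    show 2 * (x + m) + (x + m) ≤ max (2 ^ (0 + 2) * x + o) ((2 ^ (0 + 1) + 1) * (x + m))
    refine le_trans (le_of_eq ?_) (le_max_right _ _)
    ring
  | (k + 3) =>
    show max (2 ^ (k + 2) * (x + m) + (x + m)) ((2 ^ (k + 1) + 1) * (x + m + x)) ≤
      max (2 ^ (k + 1 + 2) * x + o) ((2 ^ (k + 1 + 1) + 1) * (x + m))
    have h1 : 1 ≤ 2 ^ k := Nat.one_le_two_pow
    have e1 : 2 ^ (k + 2) = 4 * 2 ^ k := by ring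
    have e2 : 2 ^ (k + 1) = 2 * 2 ^ k := by ring
    have e3 : 2 ^ (k + 1 + 2) = 8 * 2 ^ k := by ring
    rw [e1, e2, e3]
    refine max_le ?_ ?_
    · refine le_trans (le_of_eq ?_) (le_max_right _ _)
      ring
    · refine le_trans ?_ (le_max_left _ _)
      have h2 : x ≤ 2 ^ k * x := by nlinarith
      have h3 : 2 ^ k * m ≤ 2 ^ k * x := Nat.mul_le_mul_left _ (hm.trans ho)
      nlinarith

/-- The odd members are bounded by `G`. -/
theorem bound {n : ℕ} {T : Finset ℕ} (hT : Cl n T) (k : ℕ) :
    ∀ x m o : ℕ, 1 ≤ x → m ≤ o → o ≤ x → (∀ a ∈ T, a ≤ x → a % 2 = 1 → a ≤ o) →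
      (∀ a ∈ T, ∀ b ∈ T, a ≤ x → b ≤ x → a % 2 = 1 → b % 2 = 0 → a + b ≤ x + m) →
      (T.filter (x < ·)).card ≤ k → ∀ t ∈ T, t % 2 = 1 → t ≤ G k x m o := by
  induction k with
  | zero =>
    intro x m o h1 hm ho hodd hsum hcard t ht htodd
    rw [Nat.le_zero, Finset.card_eq_zero, Finset.filter_eq_empty_iff] at hcard
    exact hodd t ht (not_lt.1 (hcard ht)) htodd
  | succ k ih =>
    intro x m o h1 hm ho hodd hsum hcard t ht htodd
    by_cases hne : (T.filter (x < ·)).Nonempty
    · obtain ⟨v, hv⟩ : ∃ v, v = (T.filter (x < ·)).min' hne := ⟨_, rfl⟩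
      have hvm : v ∈ T.filter (x < ·) := hv ▸ Finset.min'_mem _ _
      have hmin : ∀ a ∈ T, x < a → v ≤ a := fun a ha hxa =>
        hv ▸ Finset.min'_le _ _ (Finset.mem_filter.2 ⟨ha, hxa⟩)
      obtain ⟨hvT, hxv⟩ := Finset.mem_filter.1 hvm
      obtain ⟨a, ha, b, hb, hab⟩ := hT.cl v hvT (by omega)
      have hapos := hT.pos a ha
      have hbpos := hT.pos b hb
      have hax : a ≤ x := by
        by_contra hc
        have := hmin a ha (by omega)
        omega
      have hbx : b ≤ x := by
        by_contra hc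
        have := hmin b hb (by omega)
        omega
      have hle : ∀ c ∈ T, c < v → c ≤ x := by
        intro c hc hcv
        by_contra hcx
        have := hmin c hc (by omega)
        omega
      have hcard' : (T.filter (v < ·)).card ≤ k := by
        have hlt : (T.filter (v < ·)).card < (T.filter (x < ·)).card := by
          apply Finset.card_lt_card
          rw [Finset.ssubset_iff_of_subset]
          · exact ⟨v, hvm, by simp⟩
          · intro c hc
            rw [Finset.mem_filter] at hc ⊢
            exact ⟨hc.1, by omega⟩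
        omega
      by_cases hpar : v % 2 = 1
      · -- odd
        have hv1 : v ≤ x + m := by
          by_cases hao : a % 2 = 1
          · have := hsum a ha b hb hax hbx hao (by omega)
            omega
          · have := hsum b hb a ha hbx hax (by omega) (by omega)
            omega
        have h := ih v x v (by omega) (by omega) le_rfl
          (fun c _ hcv _ => hcv)
          (fun c hc d hd hcv hdv hco hde => by
            have : d ≤ x := hle d hd (by
              rcases Nat.lt_or_ge d v with h | h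
              · exact h
              · have : d = v := by omega
                omega)
            omega) hcard' t ht htodd
        refine h.trans ((G_mono k hv1 le_rfl hv1).trans (G_odd k x m o hm ho))
      · have hv2 : v ≤ 2 * x := by omega
        have hodd' : ∀ c ∈ T, c ≤ v → c % 2 = 1 → c ≤ o := by
          intro c hc hcv hco
          exact hodd c hc (hle c hc (by
            rcases Nat.lt_or_ge c v with h | h
            · exact h
            · have : c = v := by omega
              omega)) hco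
        have h := ih v o o (by omega) le_rfl (by omega) hodd'
          (fun c hc d hd hcv hdv hco hde => by
            have := hodd' c hc hcv hco
            omega) hcard' t ht htodd
        exact h.trans ((G_mono k hv2 le_rfl le_rfl).trans (G_even k x m o ho))
    · rw [Finset.not_nonempty_iff_eq_empty, Finset.filter_eq_empty_iff] at hne
      exact (hodd t ht (not_lt.1 (hne ht)) htodd).trans (o_le_G _ _ _ _ ho)

theorem Gb_spec (n R x m o : ℕ) (h : Gb n R x m o = true) : G (R + 2) x m o < n := by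
  match R with
  | 0 =>
    have h' : Nat.ble (2 * x + o + 1) n = true := h
    have := Nat.le_of_ble_eq_true h'
    exact this
  | (k + 1) =>
    have h' : (Bool.rec false (Nat.ble ((2 ^ (k + 1) + 1) * (x + m) + 1) n)
      (Nat.ble (2 ^ (k + 1 + 1) * x + o + 1) n) : Bool) = true := h
    have h1 : Nat.ble (2 ^ (k + 1 + 1) * x + o + 1) n = true := by
      by_contra hc
      rw [Bool.not_eq_true] at hc
      rw [hc] at h'
      exact absurd h' (by simp)
    rw [h1] at h'
    have h1' := Nat.le_of_ble_eq_true h1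
    have h2' := Nat.le_of_ble_eq_true h'
    show max (2 ^ (k + 2) * x + o) ((2 ^ (k + 1) + 1) * (x + m)) < n
    exact max_lt h1' h2'

theorem Gb_mono (n R : ℕ) {x x' m m' o o' : ℕ} (hx : x ≤ x') (hm : m ≤ m') (ho : o ≤ o')
    (h : Gb n R x' m' o' = true) : G (R + 2) x m o < n :=
  lt_of_le_of_lt (G_mono _ hx hm ho) (Gb_spec _ _ _ _ _ h)

end Pool.Agent.V8H31.Chains
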