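import Mathlib

set_option autoImplicit false

/-!
A search, fast in the kernel, showing that an odd number has no short addition chain.
-/

namespace Pool.Agent.V8H31.Chains

/-- Evaluate `n` before passing it on (`force n f = f n`). -/
def force {α : Type} (n : ℕ) (f : ℕ → α) : α :=
  Nat.rec (f 0) (fun k _ => f (Nat.succ k)) n

theorem force_eq {α : Type} (n : ℕ) (f : ℕ → α) : force n f = f n := by
  cases n <;> rfl

/-- The pruning test (`R + 2` further elements allowed): for `R = 0` it says `2 x + o < n`, for
`R = k + 1` it says `2^(k+2) x + o < n` and `(2^(k+1) + 1) (x + m) < n`. -/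
def Gb (n R x m o : ℕ) : Bool :=
  Nat.rec (motive := fun _ => Bool)
    (Nat.ble (Nat.succ (Nat.add (Nat.mul 2 x) o)) n)
    (fun k _ =>
      Bool.rec false
        (Nat.ble (Nat.succ (Nat.mul (Nat.succ (Nat.pow 2 (Nat.succ k))) (Nat.add x m))) n)
        (Nat.ble (Nat.succ (Nat.add (Nat.mul (Nat.pow 2 (Nat.succ (Nat.succ k))) x) o)) n)) R

/-- The candidates `a + b`, `b ∈ l`, for the next element, followed by `acc`. -/
def inner (n R x o a : ℕ) (acc : List ℕ) (l : List ℕ) : List ℕ :=
  List.rec acc (fun b _ ih => force (Nat.add a b) fun v =>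
    Bool.rec
      (Bool.rec
        (Nat.rec (motive := fun _ => List ℕ)
          (Bool.rec (List.cons v ih) ih (Gb n R v o o))
          (fun _ _ => List.cons v ih) (Nat.mod v 2))
        acc (Gb n R v x v))
      acc (Nat.ble v x)) l

/-- The candidates for the next element. -/
def kids (n R x o : ℕ) (l : List ℕ) : List ℕ :=
  List.rec (List.nil) (fun a t ih =>
    Bool.rec (inner n R x o a ih (List.cons a t)) List.nil (Nat.ble (Nat.add a a) x)) l

/-- `List.all`. -/
def all {α : Type} (f : α → Bool) (l : List α) : Bool :=
  List.rec true (fun a _ ih => Bool.rec false ih (f a)) l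

/-- The new bound for the odd elements. -/
def newo (v o : ℕ) : ℕ := Nat.rec (motive := fun _ => ℕ) o (fun _ _ => v) (Nat.mod v 2)

/-- `false` if `t ∈ l` (`l` decreasing). -/
def nmem (t : ℕ) (l : List ℕ) : Bool :=
  List.rec true (fun c _ ih => Bool.rec true (Bool.rec ih false (Nat.ble c t)) (Nat.ble t c)) l

/-- `false` if `t = b + c` with `b` in `l` and `c` further on or `c = b` (`l` decreasing). -/
def nsum2 (t : ℕ) (l : List ℕ) : Bool :=
  List.rec true (fun b s ih =>
    Bool.rec true
      (Bool.rec ih (Bool.rec false ih (force (Nat.sub t b) fun u => nmem u (List.cons b s))) (Nat.ble b t))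
      (Nat.ble t (Nat.add b b))) l

/-- `false` if `n = a + b + c` with `a, b, c` in `l` (`l` decreasing). -/
def nsum3 (n : ℕ) (l : List ℕ) : Bool :=
  List.rec true (fun a s ih =>
    Bool.rec true (Bool.rec false ih (force (Nat.sub n a) fun t => nsum2 t (List.cons a s)))
      (Nat.ble n (Nat.add a (Nat.add a a)))) l

/-- The search. `L` is the list of the elements so far (decreasing), `x` the head of `L`
and `o` a bound for the odd elements. -/
def search (n : ℕ) (R : ℕ) : List ℕ → ℕ → ℕ → Bool :=
  Nat.rec (motive := fun _ => List ℕ → ℕ → ℕ → Bool)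
    (fun L _x _o => Bool.rec false (nsum3 n L) (nsum2 n L))
    (fun R ih L x o =>
      all (fun v => Bool.rec (force (newo v o) fun o' => ih (List.cons v L) v o')
        (Bool.not (Nat.beq v n)) (Nat.ble n v)) (kids n R x o L)) R

def mO (L : List ℕ) : ℕ :=
  List.rec 0 (fun a _ ih => Nat.rec (motive := fun _ => ℕ) ih (fun _ _ => a) (Nat.mod a 2)) L
def hd (L : List ℕ) : ℕ := List.rec 0 (fun a _ _ => a) L

/-- Run the search from a prefix. -/
def run (n R : ℕ) (L : List ℕ) : Bool :=
  force (hd L) fun x => force (mO L) fun o => search n R L x o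

/-- The prefixes reached after `d` further elements, where `R + 2` elements remain afterwards. -/
def front (n R : ℕ) (d : ℕ) : List ℕ → ℕ → ℕ → List (List ℕ) :=
  Nat.rec (motive := fun _ => List ℕ → ℕ → ℕ → List (List ℕ))
    (fun L _x _o => List.cons L List.nil)
    (fun d ih L x o =>
      List.rec List.nil (fun v _ ih2 =>
        Bool.rec (force (newo v o) fun o' => List.append (ih (List.cons v L) v o') ih2)
          (List.cons (List.cons v L) ih2) (Nat.ble n v))
        (kids n (Nat.add R d) x o L)) d

end Pool.Agent.V8H31.Chains
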