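import Pool.Agent.V8H31.Chains.Bound

set_option autoImplicit false

namespace Pool.Agent.V8H31.Chains

/-- `v` is pruned. -/
def Pruned (n R x o v : ℕ) : Prop :=
  G (R + 2) v x v < n ∨ (v % 2 = 0 ∧ G (R + 2) v o o < n)

theorem inner_cons (n R x o a : ℕ) (acc : List ℕ) (b : ℕ) (l : List ℕ) :
    inner n R x o a acc (b :: l) =
      if a + b ≤ x then acc else if Gb n R (a + b) x (a + b) = true then acc else
        if (a + b) % 2 = 0 ∧ Gb n R (a + b) o o = true then inner n R x o a acc l else
          (a + b) :: inner n R x o a acc l := by
  have h : inner n R x o a acc (b :: l) = force (a + b) (fun v =>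
    Bool.rec
      (Bool.rec
        (Nat.rec (motive := fun _ => List ℕ)
          (Bool.rec (List.cons v (inner n R x o a acc l)) (inner n R x o a acc l) (Gb n R v o o))
          (fun _ _ => List.cons v (inner n R x o a acc l)) (Nat.mod v 2))
        acc (Gb n R v x v))
      acc (Nat.ble v x)) := rfl
  rw [h, force_eq]
  by_cases h1 : a + b ≤ x
  · have h1' : Nat.ble (a + b) x = true := Nat.ble_eq_true_of_le h1
    rw [if_pos h1, h1']
  · have h1' : Nat.ble (a + b) x = false := by
      rw [Bool.eq_false_iff]; exact fun hh => h1 (Nat.le_of_ble_eq_true hh)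
    rw [if_neg h1, h1']
    dsimp only
    by_cases h2 : Gb n R (a + b) x (a + b) = true
    · rw [if_pos h2, h2]
    · rw [if_neg h2]
      rw [Bool.not_eq_true] at h2
      rw [h2]
      dsimp only
      rcases Nat.mod_two_eq_zero_or_one (a + b) with h3 | h3
      · have h3' : Nat.mod (a + b) 2 = 0 := h3
        rw [h3, h3']
        show (Bool.rec ((a + b) :: inner n R x o a acc l) (inner n R x o a acc l) (Gb n R (a + b) o o) : List ℕ) = _
        by_cases h4 : Gb n R (a + b) o o = true
        · rw [if_pos ⟨rfl, h4⟩, h4]
        · rw [if_neg (fun hh => h4 hh.2)]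
          rw [Bool.not_eq_true] at h4
          rw [h4]
      · have h3' : Nat.mod (a + b) 2 = 1 := h3
        rw [h3, h3', if_neg (fun hh => absurd hh.1 (by decide))]
        rfl

/-- `inner` contains `acc`. -/
theorem acc_sub_inner (n R x o a : ℕ) (acc : List ℕ) (l : List ℕ) (v : ℕ) (hv : v ∈ acc) :
    v ∈ inner n R x o a acc l := by
  induction l with
  | nil => exact hv
  | cons b l ih =>
    rw [inner_cons]
    split_ifs
    · exact hv
    · exact hv
    · exact ih
    · exact List.mem_cons_of_mem _ ih

theorem inner_spec (n R x o a : ℕ) (acc : List ℕ) (b : ℕ) (hab : x < a + b) (l : List ℕ)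
    (hl : l.Pairwise (· > ·)) (hb : b ∈ l) :
    Pruned n R x o (a + b) ∨ (a + b) ∈ inner n R x o a acc l := by
  induction l with
  | nil => simp at hb
  | cons c l ih =>
    rw [List.pairwise_cons] at hl
    have hbc : b ≤ c := by
      rcases List.mem_cons.1 hb with h | h
      · exact h.le
      · exact (hl.1 b h).le
    rw [inner_cons]
    split_ifs with h1 h2 h3
    · omega
    · left; left
      exact Gb_mono n R (by omega) le_rfl (by omega) h2
    · rcases List.mem_cons.1 hb with h | h
      · left; right
        rw [h]
        exact ⟨h3.1, Gb_spec _ _ _ _ _ h3.2⟩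
      · exact ih hl.2 h
    · rcases List.mem_cons.1 hb with h | h
      · right; rw [h]; exact List.mem_cons_self
      · rcases ih hl.2 h with h' | h'
        · exact Or.inl h'
        · exact Or.inr (List.mem_cons_of_mem _ h')

theorem kids_cons (n R x o a : ℕ) (t : List ℕ) :
    kids n R x o (a :: t) =
      if a + a ≤ x then [] else inner n R x o a (kids n R x o t) (a :: t) := by
  have h : kids n R x o (a :: t) =
    Bool.rec (inner n R x o a (kids n R x o t) (List.cons a t)) List.nil (Nat.ble (a + a) x) := rfl
  rw [h]
  by_cases h1 : a + a ≤ x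
  · have h1' : Nat.ble (a + a) x = true := Nat.ble_eq_true_of_le h1
    rw [if_pos h1, h1']
  · have h1' : Nat.ble (a + a) x = false := by
      rw [Bool.eq_false_iff]; exact fun hh => h1 (Nat.le_of_ble_eq_true hh)
    rw [if_neg h1, h1']

theorem kids_spec (n R x o a b : ℕ) (hba : b ≤ a) (hab : x < a + b) (L : List ℕ)
    (hL : L.Pairwise (· > ·)) (ha : a ∈ L) (hb : b ∈ L) :
    Pruned n R x o (a + b) ∨ (a + b) ∈ kids n R x o L := by
  induction L with
  | nil => simp at ha
  | cons c l ih =>
    have hL' := hL
    rw [List.pairwise_cons] at hL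
    have hac : a ≤ c := by
      rcases List.mem_cons.1 ha with h | h
      · exact h.le
      · exact (hL.1 a h).le
    rw [kids_cons, if_neg (by omega)]
    rcases List.mem_cons.1 ha with h | h
    · subst h
      exact inner_spec n R x o a _ b hab _ hL' hb
    · have hbl : b ∈ l := by
        rcases List.mem_cons.1 hb with h' | h'
        · exfalso
          have := hL.1 a h
          omega
        · exact h'
      rcases ih hL.2 h hbl with h' | h'
      · exact Or.inl h'
      · exact Or.inr (acc_sub_inner _ _ _ _ _ _ _ _ h')

theorem nmem_spec (t : ℕ) (l : List ℕ) (hl : l.Pairwise (· > ·)) (h : nmem t l = true) : t ∉ l := by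
  induction l with
  | nil => simp
  | cons c l ih =>
    rw [List.pairwise_cons] at hl
    have h' : (Bool.rec true (Bool.rec (nmem t l) false (Nat.ble c t)) (Nat.ble t c) : Bool) = true := h
    by_cases h1 : t ≤ c
    · have h1' : Nat.ble t c = true := Nat.ble_eq_true_of_le h1
      rw [h1'] at h'
      dsimp only at h'
      by_cases h2 : c ≤ t
      · have h2' : Nat.ble c t = true := Nat.ble_eq_true_of_le h2
        rw [h2'] at h'
        simp at h'
      · have h2' : Nat.ble c t = false := by
          rw [Bool.eq_false_iff]; exact fun hh => h2 (Nat.le_of_ble_eq_true hh)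
        rw [h2'] at h'
        rw [List.mem_cons, not_or]
        exact ⟨by omega, ih hl.2 h'⟩
    · intro hm
      rcases List.mem_cons.1 hm with h2 | h2
      · omega
      · have := hl.1 t h2
        omega

theorem nsum2_spec (t : ℕ) (l : List ℕ) (hl : l.Pairwise (· > ·)) (h : nsum2 t l = true) :
    ∀ b ∈ l, ∀ c ∈ l, c ≤ b → b + c ≠ t := by
  induction l with
  | nil => simp
  | cons d l ih =>
    intro b hb c hc hcb hbc
    have hl' := hl
    rw [List.pairwise_cons] at hl
    have hbd : b ≤ d := by
      rcases List.mem_cons.1 hb with h' | h'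
      · exact h'.le
      · exact (hl.1 b h').le
    have h' : (Bool.rec true
      (Bool.rec (nsum2 t l) (Bool.rec false (nsum2 t l) (force (Nat.sub t d) fun u => nmem u (List.cons d l)))
        (Nat.ble d t)) (Nat.ble t (d + d)) : Bool) = true := h
    have h1' : Nat.ble t (d + d) = true := Nat.ble_eq_true_of_le (by omega)
    rw [h1'] at h'
    dsimp only at h'
    have key : nsum2 t l = true ∧ (d ≤ t → nmem (t - d) (d :: l) = true) := by
      by_cases h2 : d ≤ t
      · have h2' : Nat.ble d t = true := Nat.ble_eq_true_of_le h2
        rw [h2', force_eq] at h'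
        dsimp only at h'
        by_cases h3 : nmem (t - d) (d :: l) = true
        · have h3' : nmem (Nat.sub t d) (d :: l) = true := h3
          rw [h3'] at h'
          exact ⟨h', fun _ => h3⟩
        · have h3' : nmem (Nat.sub t d) (d :: l) = false := by
            rw [Bool.eq_false_iff]; exact h3
          rw [h3'] at h'
          simp at h'
      · have h2' : Nat.ble d t = false := by
          rw [Bool.eq_false_iff]; exact fun hh => h2 (Nat.le_of_ble_eq_true hh)
        rw [h2'] at h'
        exact ⟨h', fun hh => absurd hh h2⟩
    rcases List.mem_cons.1 hb with h2 | h2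
    · subst h2
      have := nmem_spec _ _ hl' (key.2 (by omega))
      apply this
      have : t - b = c := by omega
      rw [this]
      exact hc
    · have hcl : c ∈ l := by
        rcases List.mem_cons.1 hc with h3 | h3
        · exfalso
          have := hl.1 b h2
          omega
        · exact h3
      exact ih hl.2 key.1 b h2 c hcl hcb hbc

theorem nsum3_spec (n : ℕ) (l : List ℕ) (hl : l.Pairwise (· > ·)) (h : nsum3 n l = true) :
    ∀ a ∈ l, ∀ b ∈ l, ∀ c ∈ l, b ≤ a → c ≤ b → a + b + c ≠ n := by
  induction l with
  | nil => simp
  | cons d l ih =>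
    intro a ha b hb c hc hba hcb habc
    have hl' := hl
    rw [List.pairwise_cons] at hl
    have had : a ≤ d := by
      rcases List.mem_cons.1 ha with h' | h'
      · exact h'.le
      · exact (hl.1 a h').le
    have h' : (Bool.rec true (Bool.rec false (nsum3 n l) (force (Nat.sub n d) fun t => nsum2 t (List.cons d l)))
      (Nat.ble n (d + (d + d))) : Bool) = true := h
    have h1' : Nat.ble n (d + (d + d)) = true := Nat.ble_eq_true_of_le (by omega)
    rw [h1', force_eq] at h'
    dsimp only at h'
    have h3 : nsum2 (n - d) (d :: l) = true := by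
      by_contra hc'
      rw [Bool.not_eq_true] at hc'
      have h3' : nsum2 (Nat.sub n d) (d :: l) = false := hc'
      rw [h3'] at h'
      simp at h'
    have h3' : nsum2 (Nat.sub n d) (d :: l) = true := h3
    rw [h3'] at h'
    dsimp only at h'
    rcases List.mem_cons.1 ha with h2 | h2
    · subst h2
      exact nsum2_spec _ _ hl' h3 b hb c hc hcb (by omega)
    · have hbl : b ∈ l := by
        rcases List.mem_cons.1 hb with h4 | h4
        · exfalso
          have := hl.1 a h2
          omega
        · exact h4
      have hcl : c ∈ l := by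
        rcases List.mem_cons.1 hc with h4 | h4
        · exfalso
          have := hl.1 a h2
          omega
        · exact h4
      exact ih hl.2 h' a h2 b hbl c hcl hba hcb habc

theorem all_spec {α : Type} (f : α → Bool) (l : List α) (h : all f l = true) :
    ∀ a ∈ l, f a = true := by
  induction l with
  | nil => simp
  | cons b l ih =>
    have h' : (Bool.rec false (all f l) (f b) : Bool) = true := h
    by_cases hb : f b = true
    · rw [hb] at h'
      intro a ha
      rcases List.mem_cons.1 ha with h1 | h1
      · rw [h1]; exact hb
      · exact ih h' a h1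
    · rw [Bool.not_eq_true] at hb
      rw [hb] at h'
      simp at h'

theorem newo_eq (v o : ℕ) : newo v o = if v % 2 = 1 then v else o := by
  have h : newo v o = Nat.rec (motive := fun _ => ℕ) o (fun _ _ => v) (Nat.mod v 2) := rfl
  rw [h]
  rcases Nat.mod_two_eq_zero_or_one v with h3 | h3
  · have h3' : Nat.mod v 2 = 0 := h3
    rw [h3', h3, if_neg (by decide)]
    rfl
  · have h3' : Nat.mod v 2 = 1 := h3
    rw [h3', h3, if_pos rfl]
    rfl

/-- Soundness of the search. -/
theorem search_sound {n : ℕ} (hn : n % 2 = 1) {T : Finset ℕ} (hT : Cl n T) (hnT : n ∈ T) (R : ℕ) :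
    ∀ (L : List ℕ) (x o : ℕ), 1 ≤ x → x < n → L.Pairwise (· > ·) → (∀ a, a ∈ L ↔ a ∈ T ∧ a ≤ x) →
      (∀ a ∈ L, a % 2 = 1 → a ≤ o) → o ≤ x → (T.filter (x < ·)).card ≤ R + 2 →
      search n R L x o = true → False := by
  induction R with
  | zero =>
    intro L x o hx hxn hL hmem hodd ho hcard hs
    have hs' : (Bool.rec false (nsum3 n L) (nsum2 n L) : Bool) = true := hs
    have h2 : nsum2 n L = true := by
      by_contra hc
      rw [Bool.not_eq_true] at hc
      rw [hc] at hs'
      simp at hs'
    rw [h2] at hs'
    have h3 : nsum3 n L = true := hs'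
    have hsum2 : ∀ a ∈ L, ∀ b ∈ L, a + b ≠ n := by
      intro a ha b hb
      rcases le_total b a with h | h
      · exact nsum2_spec n L hL h2 a ha b hb h
      · rw [add_comm]; exact nsum2_spec n L hL h2 b hb a ha h
    have hsum3 : ∀ a ∈ L, ∀ b ∈ L, ∀ c ∈ L, a + b + c ≠ n := by
      intro a ha b hb c hc habc
      rcases le_total b a with h | h <;> rcases le_total c b with h' | h' <;>
        rcases le_total c a with h'' | h''
      · exact nsum3_spec n L hL h3 a ha b hb c hc h h' habc
      · exact nsum3_spec n L hL h3 a ha b hb c hc h h' habc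
      · exact nsum3_spec n L hL h3 a ha c hc b hb h'' h' (by omega)
      · exact nsum3_spec n L hL h3 c hc a ha b hb h'' h (by omega)
      · exact nsum3_spec n L hL h3 b hb a ha c hc h h'' (by omega)
      · exact nsum3_spec n L hL h3 b hb c hc a ha h' h'' (by omega)
      · exact nsum3_spec n L hL h3 c hc b hb a ha h' h (by omega)
      · exact nsum3_spec n L hL h3 c hc b hb a ha h' h (by omega)
    -- the least element above x
    have hne : (T.filter (x < ·)).Nonempty := ⟨n, Finset.mem_filter.2 ⟨hnT, hxn⟩⟩
    obtain ⟨v, hv⟩ : ∃ v, v = (T.filter (x < ·)).min' hne := ⟨_, rfl⟩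
    have hvm : v ∈ T.filter (x < ·) := hv ▸ Finset.min'_mem _ _
    have hmin : ∀ a ∈ T, x < a → v ≤ a := fun a ha hxa =>
      hv ▸ Finset.min'_le _ _ (Finset.mem_filter.2 ⟨ha, hxa⟩)
    obtain ⟨hvT, hxv⟩ := Finset.mem_filter.1 hvm
    have hin : ∀ c ∈ T, c < v → c ∈ L := by
      intro c hc hcv
      rw [hmem]
      refine ⟨hc, ?_⟩
      by_contra hcx
      have := hmin c hc (by omega)
      omega
    obtain ⟨a, ha, b, hb, hab⟩ := hT.cl v hvT (by omega)
    have hapos := hT.pos a ha
    have hbpos := hT.pos b hb
    have haL := hin a ha (by omega)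
    have hbL := hin b hb (by omega)
    have hvn : v ≠ n := fun h => hsum2 a haL b hbL (by omega)
    have hvn' : v < n := lt_of_le_of_ne (hT.le v hvT) hvn
    -- all elements above x are v and n
    have hfil : ∀ c ∈ T, x < c → c = v ∨ c = n := by
      intro c hc hxc
      by_contra hcc
      rw [not_or] at hcc
      have hsub : ({v, n, c} : Finset ℕ) ⊆ T.filter (x < ·) := by
        intro d hd
        simp only [Finset.mem_insert, Finset.mem_singleton] at hd
        rcases hd with rfl | rfl | rfl
        · exact hvm
        · exact Finset.mem_filter.2 ⟨hnT, hxn⟩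
        · exact Finset.mem_filter.2 ⟨hc, hxc⟩
      have hc3 : ({v, n, c} : Finset ℕ).card = 3 := by
        rw [Finset.card_eq_three]
        exact ⟨v, n, c, hvn, fun h => hcc.1 h.symm, fun h => hcc.2 h.symm, rfl⟩
      have := Finset.card_le_card hsub
      omega
    obtain ⟨c, hc, d, hd, hcd⟩ := hT.cl n hnT (by omega)
    have hcpos := hT.pos c hc
    have hdpos := hT.pos d hd
    have hclas : ∀ e ∈ T, e < n → e ∈ L ∨ e = v := by
      intro e he hen
      by_cases hxe : x < e
      · rcases hfil e he hxe with h | h
        · exact Or.inr h
        · omega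
      · exact Or.inl ((hmem e).2 ⟨he, by omega⟩)
    rcases hclas c hc (by omega) with h | h <;> rcases hclas d hd (by omega) with h' | h'
    · exact hsum2 c h d h' hcd.symm
    · exact hsum3 a haL b hbL c h (by omega)
    · exact hsum3 a haL b hbL d h' (by omega)
    · omega
  | succ R ih =>
    intro L x o hx hxn hL hmem hodd ho hcard hs
    have hs' : all (fun v => Bool.rec (force (newo v o) fun o' => search n R (List.cons v L) v o')
        (Bool.not (Nat.beq v n)) (Nat.ble n v)) (kids n R x o L) = true := hs
    have hne : (T.filter (x < ·)).Nonempty := ⟨n, Finset.mem_filter.2 ⟨hnT, hxn⟩⟩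
    obtain ⟨v, hv⟩ : ∃ v, v = (T.filter (x < ·)).min' hne := ⟨_, rfl⟩
    have hvm : v ∈ T.filter (x < ·) := hv ▸ Finset.min'_mem _ _
    have hmin : ∀ a ∈ T, x < a → v ≤ a := fun a ha hxa =>
      hv ▸ Finset.min'_le _ _ (Finset.mem_filter.2 ⟨ha, hxa⟩)
    obtain ⟨hvT, hxv⟩ := Finset.mem_filter.1 hvm
    have hle : ∀ c ∈ T, c < v → c ≤ x := by
      intro c hc hcv
      by_contra hcx
      have := hmin c hc (by omega)
      omega
    have hin : ∀ c ∈ T, c < v → c ∈ L := fun c hc hcv => (hmem c).2 ⟨hc, hle c hc hcv⟩
    obtain ⟨a, ha, b, hb, hab⟩ := hT.cl v hvT (by omega)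
    have hapos := hT.pos a ha
    have hbpos := hT.pos b hb
    have haL := hin a ha (by omega)
    have hbL := hin b hb (by omega)
    have hcard' : (T.filter (v < ·)).card ≤ R + 2 := by
      have hlt : (T.filter (v < ·)).card < (T.filter (x < ·)).card := by
        apply Finset.card_lt_card
        rw [Finset.ssubset_iff_of_subset]
        · exact ⟨v, hvm, by simp⟩
        · intro c hc
          rw [Finset.mem_filter] at hc ⊢
          exact ⟨hc.1, by omega⟩
      omega
    have hodd' : ∀ c ∈ T, c < v → c % 2 = 1 → c ≤ o := fun c hc hcv hco =>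
      hodd c (hin c hc hcv) hco
    -- pruning is sound
    have hpr : ¬ Pruned n R x o v := by
      intro hp
      have hGo : v % 2 = 0 → G (R + 2) v o o < n → False := by
        intro hv0 hG
        have := bound hT (R + 2) v o o (by omega) le_rfl (by omega)
          (fun c hc hcv hco => hodd' c hc (by
            rcases Nat.lt_or_ge c v with h | h
            · exact h
            · have : c = v := by omega
              omega) hco)
          (fun c hc d hd hcv hdv hco hde => by
            have := hodd' c hc (by
              rcases Nat.lt_or_ge c v with h | h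
              · exact h
              · have : c = v := by omega
                omega) hco
            omega) hcard' n hnT hn
        omega
      rcases hp with hG | ⟨hv0, hG⟩
      · rcases Nat.mod_two_eq_zero_or_one v with hv0 | hv1
        · refine hGo hv0 (lt_of_le_of_lt (G_mono _ le_rfl ?_ ?_) hG)
          · exact ho
          · omega
        · have := bound hT (R + 2) v x v (by omega) (by omega) le_rfl
            (fun c hc hcv hco => hcv)
            (fun c hc d hd hcv hdv hco hde => by
              have : d ≤ x := hle d hd (by
                rcases Nat.lt_or_ge d v with h | h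
                · exact h
                · have : d = v := by omega
                  omega)
              omega) hcard' n hnT hn
          omega
      · exact hGo hv0 hG
    have hkid : v ∈ kids n R x o L := by
      rcases le_total b a with h | h
      · rcases kids_spec n R x o a b h (by omega) L hL haL hbL with h' | h'
        · exact absurd (hab ▸ h') hpr
        · exact hab ▸ h'
      · rcases kids_spec n R x o b a h (by omega) L hL hbL haL with h' | h'
        · have e : b + a = v := by omega
          exact absurd (e ▸ h') hpr
        · have e : b + a = v := by omega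
          exact e ▸ h'
    have hf : (Bool.rec (force (newo v o) fun o' => search n R (List.cons v L) v o')
        (Bool.not (Nat.beq v n)) (Nat.ble n v) : Bool) = true := all_spec _ _ hs' v hkid
    by_cases hvn : n ≤ v
    · have hvn' : v = n := le_antisymm (hT.le v hvT) hvn
      subst hvn'
      have e1 : Nat.ble v v = true := Nat.ble_eq_true_of_le le_rfl
      have e2 : Nat.beq v v = true := Nat.beq_refl v
      rw [e1, e2] at hf
      simp at hf
    · have e1 : Nat.ble n v = false := by
        rw [Bool.eq_false_iff]; exact fun hh => hvn (Nat.le_of_ble_eq_true hh)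
      rw [e1, force_eq] at hf
      dsimp only at hf
      refine ih (v :: L) v (newo v o) (by omega) (by omega) ?_ ?_ ?_ ?_ hcard' hf
      · rw [List.pairwise_cons]
        refine ⟨fun a ha => ?_, hL⟩
        have := ((hmem a).1 ha).2
        show v > a
        omega
      · intro c
        rw [List.mem_cons]
        constructor
        · rintro (h | h)
          · exact ⟨h ▸ hvT, h.le⟩
          · have := (hmem c).1 h
            exact ⟨this.1, by omega⟩
        · rintro ⟨h1, h2⟩
          rcases Nat.lt_or_ge c v with h | h
          · exact Or.inr (hin c h1 h)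
          · left; omega
      · intro c hc hco
        rw [newo_eq]
        rcases List.mem_cons.1 hc with h | h
        · rw [if_pos (by rw [← h]; exact hco)]
          exact h.le
        · have h1 := hodd c h hco
          split_ifs
          · omega
          · exact h1
      · rw [newo_eq]
        split_ifs
        · exact le_rfl
        · omega

end Pool.Agent.V8H31.Chains
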